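import Pool.Agent.Lib.MP_e7d961_lc.Stm

/-!
The reduction: NP-hardness from the statements of the pieces (`MP_e7d961_lc`).
-/

namespace SDich

open Finset HerCo CookLevin N68a2faeb

/-- all the statements about the reduction -/
structure AllS : Prop where
  uk : S_uk
  anti : S_anti
  comp : S_comp
  simp : S_simp
  minv : S_minv
  msim : S_msim
  qsnd : S_qsnd
  isnd : S_isnd
  icmp : S_icmp
  lsol : S_lsol
  good : S_good
  rigid : S_rigid
  pos : S_pos
  tsnd1 : S_tsnd1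
  tsnd2 : S_tsnd2
  tcmp : S_tcmp
  col1 : S_col1
  col2 : S_col2
  colb : S_colb
  tri1 : S_tri1
  tri2 : S_tri2
  trib : S_trib
  code : S_code
  hdt : S_hdt
  verts : S_verts
  real : S_real
  ports : S_ports
  nc : S_nc
  conn : S_conn
  cov : S_cov
  colr : S_colr
  fpcol : S_fpcol
  fptri : S_fptri
  fpcls : S_fpcls
  fpcode : S_fpcode
  fpcb : S_fpcb
  fpcov : S_fpcov
  codeb : S_codeb
  covb : S_covb
  np : S_np
  mat : S_match
  konig : S_konig
  dcov : S_dcov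
  dconv : S_dconv
  fpdip : S_fpdip
  dalg : S_dalg

theorem coverSimple_iff (H : Gr) (s : List Bool) :
    CoverSimple H s = true ↔ ∃ h : IsCode s, (graphOf s h).Simple ∧ (graphOf s h).Covers H := by
  classical
  unfold CoverSimple
  exact decide_eq_true_iff

theorem coverGeneral_iff (H : Gr) (s : List Bool) :
    CoverGeneral H s = true ↔ ∃ h : IsCode s, (graphOf s h).Covers H := by
  classical
  unfold CoverGeneral
  exact decide_eq_true_iff

/-- the theorem for port graphs: the code of the instance of `φ` is a yes-instance if and only if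
`φ` is satisfiable -/
theorem main_iff (S : AllS) (H : Gr) (n m : ℕ) (hn : 0 < n) (R : Ports H (m + 3) n)
    (hnc : R.P.NC) (U : UK R.P) (x0 : Fin n) (pos : Equiv.Perm (Fin (m + 3)))
    (hx0 : ∀ g : Fin n → Fin n,
      (∀ x y, (univ.filter fun i => g (R.P.hd x i) = y).card = R.P.A (g x) y) →
      ∀ i j, g (R.P.hd x0 i) = g (R.P.hd x0 j) → R.P.hd x0 i = R.P.hd x0 j)
    (hp0 : R.P.hd x0 (pos 2) ≠ R.P.hd x0 (pos 0)) (hp1 : R.P.hd x0 (pos 2) ≠ R.P.hd x0 (pos 1))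
    (φ : Cnf) :
    CoverSimple H (theCode (m + 3) U.N U.u (tabOf U) (nvOf n (m + 3) (triN (colN φ) (colE φ)))
      (clsH R.P x0 pos (triN (colN φ) (colE φ)) (tri (colN φ) (colE φ)))) = true ↔ Sat φ := by
  set E := colE φ with hE
  set N0 := colN φ with hN0
  have hb := S.colb φ
  have htb := S.trib N0 E hb
  set tN := triN N0 E with htN
  set T := tri N0 E with hT
  have hgood := S.good n m R.P x0 pos tN T htb
  set cls := clsH R.P x0 pos tN T with hcls
  set nv := nvOf n (m + 3) tN with hnv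
  have hv : 0 < nv := by
    rw [hnv, nvOf]
    have : 0 < n * (m + 3) := Nat.mul_pos hn (by omega)
    omega
  have hM : ∀ p, (instOf (m + 3) nv cls hv).M (m := m + 1)
      ((instOf (m + 3) nv cls hv).M (m := m + 1) p) = p := fun p => S.minv _ _ (m + 1) _ p
  have hsim : (U.PG ((instOf (m + 3) nv cls hv).M (m := m + 1)) hM).Simple :=
    S.simp _ _ _ _ _ _ _ (S.msim _ _ (m + 1) _).1 (S.msim _ _ (m + 1) _).2
  obtain ⟨h, ψ, hreal⟩ := S.real S.code S.hdt S.verts n m R.P U nv cls hv hgood hM hsim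
  have hlen : 0 < cls.length := List.length_pos_iff.2 hgood.1
  have : Nonempty (Fin cls.length) := ⟨⟨0, hlen⟩⟩
  have hne : Nonempty (Cpy (Fin nv) (Fin cls.length) (m + 3)) := ⟨.cl ⟨0, hlen⟩⟩
  have hsat : Sat φ ↔ ∃ val, LSol R.P nv cls val := by
    constructor
    · intro hs
      obtain ⟨ρ, hρ⟩ := S.tri1 N0 E hb (S.col1 φ hs)
      exact S.tcmp n m R.P x0 pos tN T ρ htb hρ
    · rintro ⟨val, hval⟩
      obtain ⟨t, ht⟩ := S.tsnd2 S.tsnd1 n m R.P x0 pos tN T val hnc hx0 hp0 hp1 htb hval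
      exact S.col2 φ (S.tri2 N0 E hb ⟨t, ht⟩)
  rw [hsat, S.lsol n (m + 3) nv R.P cls hv hgood]
  rw [coverSimple_iff]
  constructor
  · rintro ⟨h', _, hc⟩
    obtain ⟨f, hf⟩ := S.colr H (m + 3) n R _ _ _ ψ hsim hreal hc
    exact S.isnd S.qsnd S.anti _ m R.P U _ _ _ hM f hnc hf
  · rintro ⟨val, hval⟩
    obtain ⟨Φ, hΦ⟩ := S.icmp _ m R.P _ _ _ val hval
    have hcov := S.comp _ _ R.P U _ _ hM Φ hΦ
    exact ⟨h, hreal.1, S.cov H (m + 3) n R _ _ _ ψ hsim hreal hcov⟩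

/-- NP-completeness, general form -/
theorem npc_of (S : AllS) (H : Gr) (k : ℕ) (hk : 3 ≤ k) (hreg : H.Regular k)
    (hne : Nonempty H.V) (h2 : ∀ x, ∃ y z, y ≠ z ∧ H.Nbr x y ∧ H.Nbr x z) :
    NPComplete (CoverSimple H) := by
  refine ⟨S.np S.fpcb S.fpcov S.codeb S.covb H, fun L hL => ?_⟩
  obtain ⟨m, rfl⟩ : ∃ m, k = m + 3 := ⟨k - 3, by omega⟩
  obtain ⟨R⟩ := S.ports H (m + 3) hreg
  have hn : 0 < Fintype.card H.V := Fintype.card_pos
  have hnc := S.nc H _ _ R h2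
  obtain ⟨U⟩ := S.uk _ _ R.P
  obtain ⟨x0, hx0⟩ := S.rigid _ _ R.P hn
  obtain ⟨pos, hp0, hp1⟩ := S.pos _ m R.P hnc x0
  obtain ⟨F, hF, _, _, hS⟩ := cook_levin hL
  refine ⟨fun x => theCode (m + 3) U.N U.u (tabOf U)
    (nvOf (Fintype.card H.V) (m + 3) (triN (colN (F x)) (colE (F x))))
    (clsH R.P x0 pos (triN (colN (F x)) (colE (F x))) (tri (colN (F x)) (colE (F x)))), ?_,
    fun x => ?_⟩
  · rw [isPolyTime_list]
    obtain ⟨hE, hN⟩ := S.fpcol _ F hF
    obtain ⟨hT, htN⟩ := S.fptri _ _ _ hN hE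
    obtain ⟨hc, hv⟩ := S.fpcls (Fintype.card H.V) (m + 3) (constC R.P) (w0 R.P x0 pos)
      (rest0 R.P x0 pos) _ _ _ htN hT
    exact S.fpcode (m + 3) U.N U.u (tabOf U) _ _ _ hv hc
  · rw [hS x]
    exact (main_iff S H _ m hn R hnc U x0 pos hx0 hp0 hp1 (F x)).symm

/-- NP-completeness for connected graphs -/
theorem npc_conn (S : AllS) (H : Gr) (k : ℕ) (hk : 3 ≤ k) (hreg : H.Regular k)
    (hc : H.Connected) (h2 : 2 ≤ Fintype.card H.V) (hd : ¬ H.Dipole) :
    NPComplete (CoverSimple H) :=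
  npc_of S H k hk hreg hc.1 (S.conn H k (by omega) hreg hc h2 hd)

/-- the dipole -/
theorem p_of (S : AllS) (H : Gr) (k : ℕ) (hk : 0 < k) (hreg : H.Regular k) (hd : H.Dipole) :
    CoverGeneral H ∈ P := by
  show IsPolyTime (CoverGeneral H)
  have h1 : CoverGeneral H = dipB k := by
    funext s
    rw [Bool.eq_iff_iff, coverGeneral_iff, S.dalg S.codeb k s]
    constructor
    · rintro ⟨h, hc⟩
      exact ⟨h, S.dconv _ _ k hd hreg hc⟩
    · rintro ⟨h, hb⟩
      exact ⟨h, S.dcov S.mat S.konig _ _ k hk ⟨⟨0, h.1⟩⟩ hd hreg hb⟩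
  rw [h1, isPolyTime_bool]
  exact S.fpdip S.fpcb k

end SDich
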