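import Mathlib
import Pool.Prelude.Def_H_3587d628

/-!
Graphs with ordinary edges, loops and semi-edges, covering projections, and the decision problem
`H`-COVER on general and on simple inputs (`MP_e7d961_lc`).
-/

namespace SDich

open Finset N68a2faeb

/-- A finite graph: every edge has a multiset of one or two ends.  One end: a semi-edge; two equal
ends: a loop; two distinct ends: an ordinary edge. -/
structure Gr where
  /-- the vertices -/
  V : Type
  /-- the edges -/
  E : Type
  [fV : Fintype V]
  [fE : Fintype E]
  [dV : DecidableEq V]
  [dE : DecidableEq E]
  /-- the ends of an edge -/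
  ends : E → Multiset V
  card_ends : ∀ e, (ends e).card = 1 ∨ (ends e).card = 2

attribute [instance] Gr.fV Gr.fE Gr.dV Gr.dE

namespace Gr

/-- The degree of a vertex: the number of edge ends at it (a loop counts twice). -/
def deg (G : Gr) (x : G.V) : ℕ := ∑ e, (G.ends e).count x

/-- `k`-regular graphs. -/
def Regular (G : Gr) (k : ℕ) : Prop := ∀ x, G.deg x = k

/-- Simple graphs: no loops, no semi-edges and no multiple edges. -/
def Simple (G : Gr) : Prop :=
  (∀ e, (G.ends e).card = 2 ∧ (G.ends e).Nodup) ∧ Function.Injective G.ends

/-- `y` is a neighbour of `x`; a vertex on a loop or on a semi-edge is its own neighbour. -/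
def Nbr (G : Gr) (x y : G.V) : Prop :=
  ∃ e, G.ends e = {x, y} ∨ (x = y ∧ G.ends e = {x})

/-- Connected graphs. -/
def Connected (G : Gr) : Prop := Nonempty G.V ∧ ∀ x y, Relation.ReflTransGen G.Nbr x y

/-- Two vertices joined by (parallel) ordinary edges, without loops and semi-edges. -/
def Dipole (G : Gr) : Prop := Fintype.card G.V = 2 ∧ ∀ e, (G.ends e).card = 2 ∧ (G.ends e).Nodup

/-- `(f, g)` is a covering projection of `G` to `H`: `f` and `g` are onto, incidences are
preserved (`ends`; an ordinary edge may be mapped to a semi-edge, and then both its ends are mapped
to the end of the semi-edge), and (`loc`) the preimage of an edge `e` of `H` has, at each vertex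
`v`, as many ends as `e` has at `f v`.  So the preimage of an ordinary edge `xy` is a perfect
matching between the preimages of `x` and `y`, the preimage of a loop at `x` is a disjoint union
of cycles that span the preimage of `x`, and each vertex of the preimage of `x` meets exactly one
edge of the preimage of a semi-edge at `x`, which is not a loop. -/
structure IsCover (G H : Gr) (f : G.V → H.V) (g : G.E → H.E) : Prop where
  surjV : Function.Surjective f
  surjE : Function.Surjective g
  ends : ∀ e, (G.ends e).map f = H.ends (g e) ∨
    ((H.ends (g e)).card = 1 ∧ (G.ends e).map f = H.ends (g e) + H.ends (g e))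
  loc : ∀ v e, ∑ e' ∈ univ.filter (fun e' => g e' = e), (G.ends e').count v =
    (H.ends e).count (f v)

/-- `G` covers `H`. -/
def Covers (G H : Gr) : Prop := ∃ f g, IsCover G H f g

end Gr

/-! ### codes -/

/-- The number of vertices of the graph coded by a string: the number of leading `true`. -/
def numV (s : List Bool) : ℕ := (s.takeWhile id).length

/-- The number of edges of the graph coded by a string. -/
def numE (s : List Bool) : ℕ := (s.length - numV s - 1) / (2 * numV s)

/-- The bit `t` (`t < 2`) of the entry of the incidence matrix for the edge `j` and the vertex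
`a`. -/
def bit (s : List Bool) (j a t : ℕ) : Bool :=
  s.getD (numV s + 1 + j * (2 * numV s) + 2 * a + t) false

/-- The entry of the incidence matrix: the number of ends of the edge `j` at the vertex `a`; it is
coded by two bits. -/
def entry (s : List Bool) (j a : ℕ) : ℕ := (bit s j a 0).toNat + (bit s j a 1).toNat

/-- The ends of the edge `j`. -/
def endsOf (s : List Bool) (j : ℕ) : Multiset (Fin (numV s)) :=
  ∑ a : Fin (numV s), Multiset.replicate (entry s j a) a

/-- `s` is the code of a graph with a nonempty set `{0, ..., n - 1}` of vertices: `true` (`n`
times), `false`, and the incidence matrix, row by row, with two bits for an entry `0`, `1`, `2`;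
the rows belong to the edges and have sum `1` or `2`. -/
def IsCode (s : List Bool) : Prop :=
  0 < numV s ∧ s.length = numV s + 1 + numE s * (2 * numV s) ∧
    ∀ j < numE s, (endsOf s j).card = 1 ∨ (endsOf s j).card = 2

/-- The graph coded by a string. -/
def graphOf (s : List Bool) (h : IsCode s) : Gr where
  V := Fin (numV s)
  E := Fin (numE s)
  ends j := endsOf s j
  card_ends j := h.2.2 j j.2

open Classical in
/-- `H`-COVER on general inputs. -/
noncomputable def CoverGeneral (H : Gr) : DecisionProblem :=
  fun s => decide (∃ h : IsCode s, (graphOf s h).Covers H)

open Classical in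
/-- `H`-COVER on simple inputs. -/
noncomputable def CoverSimple (H : Gr) : DecisionProblem :=
  fun s => decide (∃ h : IsCode s, (graphOf s h).Simple ∧ (graphOf s h).Covers H)

/-- `D` is NP-complete (polynomial-time many-one reductions). -/
def NPComplete (D : DecisionProblem) : Prop :=
  D ∈ NP ∧ ∀ L ∈ NP, ∃ f : List Bool → List Bool, IsPolyTime f ∧
    ∀ x, L x = true ↔ D (f x) = true

end SDich
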