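import Pool.Agent.Lib.MP_e7d961_lc.Asm
import Pool.Agent.Lib.MP_e7d961_lc.P.uk
import Pool.Agent.Lib.MP_e7d961_lc.P.anti
import Pool.Agent.Lib.MP_e7d961_lc.P.comp
import Pool.Agent.Lib.MP_e7d961_lc.P.simp
import Pool.Agent.Lib.MP_e7d961_lc.P.minv
import Pool.Agent.Lib.MP_e7d961_lc.P.msim
import Pool.Agent.Lib.MP_e7d961_lc.P.qsnd
import Pool.Agent.Lib.MP_e7d961_lc.P.isnd
import Pool.Agent.Lib.MP_e7d961_lc.P.icmp
import Pool.Agent.Lib.MP_e7d961_lc.P.lsol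
import Pool.Agent.Lib.MP_e7d961_lc.P.good
import Pool.Agent.Lib.MP_e7d961_lc.P.rigid
import Pool.Agent.Lib.MP_e7d961_lc.P.pos
import Pool.Agent.Lib.MP_e7d961_lc.P.tsnd1
import Pool.Agent.Lib.MP_e7d961_lc.P.tsnd2
import Pool.Agent.Lib.MP_e7d961_lc.P.tcmp
import Pool.Agent.Lib.MP_e7d961_lc.P.col1
import Pool.Agent.Lib.MP_e7d961_lc.P.col2
import Pool.Agent.Lib.MP_e7d961_lc.P.colb
import Pool.Agent.Lib.MP_e7d961_lc.P.tri1
import Pool.Agent.Lib.MP_e7d961_lc.P.tri2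
import Pool.Agent.Lib.MP_e7d961_lc.P.trib
import Pool.Agent.Lib.MP_e7d961_lc.P.code
import Pool.Agent.Lib.MP_e7d961_lc.P.hdt
import Pool.Agent.Lib.MP_e7d961_lc.P.verts
import Pool.Agent.Lib.MP_e7d961_lc.P.real
import Pool.Agent.Lib.MP_e7d961_lc.P.ports
import Pool.Agent.Lib.MP_e7d961_lc.P.nc
import Pool.Agent.Lib.MP_e7d961_lc.P.conn
import Pool.Agent.Lib.MP_e7d961_lc.P.cov
import Pool.Agent.Lib.MP_e7d961_lc.P.colr
import Pool.Agent.Lib.MP_e7d961_lc.P.fpcol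
import Pool.Agent.Lib.MP_e7d961_lc.P.fptri
import Pool.Agent.Lib.MP_e7d961_lc.P.fpcls
import Pool.Agent.Lib.MP_e7d961_lc.P.fpcode
import Pool.Agent.Lib.MP_e7d961_lc.P.fpcb
import Pool.Agent.Lib.MP_e7d961_lc.P.fpcov
import Pool.Agent.Lib.MP_e7d961_lc.P.codeb
import Pool.Agent.Lib.MP_e7d961_lc.P.covb
import Pool.Agent.Lib.MP_e7d961_lc.P.np
import Pool.Agent.Lib.MP_e7d961_lc.P.match
import Pool.Agent.Lib.MP_e7d961_lc.P.konig
import Pool.Agent.Lib.MP_e7d961_lc.P.dcov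
import Pool.Agent.Lib.MP_e7d961_lc.P.dconv
import Pool.Agent.Lib.MP_e7d961_lc.P.fpdip
import Pool.Agent.Lib.MP_e7d961_lc.P.dalg

/-!
All pieces together (`MP_e7d961_lc`).
-/

namespace SDich

/-- all the statements hold -/
theorem allS : AllS where
  uk := p_uk
  anti := p_anti
  comp := p_comp
  simp := p_simp
  minv := p_minv
  msim := p_msim
  qsnd := p_qsnd
  isnd := p_isnd
  icmp := p_icmp
  lsol := p_lsol
  good := p_good
  rigid := p_rigid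
  pos := p_pos
  tsnd1 := p_tsnd1
  tsnd2 := p_tsnd2
  tcmp := p_tcmp
  col1 := p_col1
  col2 := p_col2
  colb := p_colb
  tri1 := p_tri1
  tri2 := p_tri2
  trib := p_trib
  code := p_code
  hdt := p_hdt
  verts := p_verts
  real := p_real
  ports := p_ports
  nc := p_nc
  conn := p_conn
  cov := p_cov
  colr := p_colr
  fpcol := p_fpcol
  fptri := p_fptri
  fpcls := p_fpcls
  fpcode := p_fpcode
  fpcb := p_fpcb
  fpcov := p_fpcov
  codeb := p_codeb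
  covb := p_covb
  np := p_np
  mat := p_match
  konig := p_konig
  dcov := p_dcov
  dconv := p_dconv
  fpdip := p_fpdip
  dalg := p_dalg

end SDich
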