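import Pool.Agent.Lib.MP_e7d961_lc.Defs
import Pool.Agent.Lib.CookLevin.Main

/-!
Internal notions: `k`-regular graphs with numbered ports, coverings and colourings, the port
graph of a matching of the ports of copies of a universal graph, instances of the constraint
satisfaction problem.
-/

namespace SDich

open Finset

/-- A `k`-regular graph with vertex set `W` whose `k` darts at every vertex are numbered.
`rev` is the reversal of darts (a fixed point is a semi-edge). -/
structure PN (W : Type) (k : ℕ) where
  /-- reversal -/
  rev : W × Fin k → W × Fin k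
  inv : ∀ d, rev (rev d) = d

/-- A frame: a vertex and a bijection of the ports. -/
abbrev Fr (V : Type) (k : ℕ) := V × Equiv.Perm (Fin k)

namespace PN

variable {V W : Type} {k : ℕ}

/-- the head of the dart `i` at `x` -/
def hd (H : PN V k) (x : V) (i : Fin k) : V := (H.rev (x, i)).1

/-- the number of darts from `x` to `y` -/
def A [DecidableEq V] (H : PN V k) (x y : V) : ℕ := (univ.filter fun i => H.hd x i = y).card

/-- every vertex has two different neighbours -/
def NC (H : PN V k) : Prop := ∀ x, ∃ i j, H.hd x i ≠ H.hd x j

/-- the action of a frame on ports -/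
def dart (F : Fr V k) (i : Fin k) : V × Fin k := (F.1, F.2 i)

/-- `G` covers `H` (darts). -/
def Cov (G : PN W k) (H : PN V k) : Prop :=
  ∃ F : W → Fr V k, (∀ x, ∃ w, (F w).1 = x) ∧
    ∀ w i, dart (F (G.rev (w, i)).1) (G.rev (w, i)).2 = H.rev (dart (F w) i)

/-- `f` maps `G` to `H` on the level of vertices. -/
def Col [DecidableEq V] (G : PN W k) (H : PN V k) (f : W → V) : Prop :=
  ∀ w y, (univ.filter fun i => f (G.hd w i) = y).card = H.A (f w) y

/-- the graph has no loops, semi-edges and multiple edges -/
def Simple (G : PN W k) : Prop :=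
  (∀ w i, G.hd w i ≠ w) ∧ ∀ w i j, G.hd w i = G.hd w j → i = j

/-- the move of frames along the port `i` -/
def theta (H : PN V k) (i : Fin k) (F : Fr V k) : Fr V k :=
  ((H.rev (dart F i)).1, Equiv.swap (F.2 i) (H.rev (dart F i)).2 * F.2)

end PN

/-- A universal graph for `H`: a simple `k`-regular graph with vertices `0, ..., N - 1` whose edges
are properly coloured by the ports, with a root `u`, such that every frame of `H` at `u` extends
to a covering. -/
structure UK {V : Type} {k : ℕ} (H : PN V k) where
  /-- number of vertices -/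
  N : ℕ
  /-- the neighbours -/
  nb : Fin k → Fin N → Fin N
  nb_nb : ∀ i κ, nb i (nb i κ) = κ
  nb_ne : ∀ i κ, nb i κ ≠ κ
  nb_inj : ∀ i j κ, nb i κ = nb j κ → i = j
  /-- the root -/
  u : Fin N
  /-- the coverings -/
  F : Fr V k → Fin N → Fr V k
  F_nb : ∀ p i κ, F p (nb i κ) = H.theta i (F p κ)
  F_u : ∀ p, F p u = p
  F_onto : ∀ p x, ∃ κ, (F p κ).1 = x

/-- A port: a copy, `true` for an outer port (at the root), `false` for an inner port (at the
neighbour `i` of the root), and the number `i`. -/
abbrev Port (Ω : Type) (k : ℕ) := Ω × Bool × Fin k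

namespace UK

variable {V : Type} {k : ℕ} {H : PN V k} {Ω : Type}

/-- the vertex of a port -/
def pv (U : UK H) (p : Port Ω k) : Ω × Fin U.N := (p.1, if p.2.1 then U.u else U.nb p.2.2 U.u)

/-- the dart of a port -/
def pd (U : UK H) (p : Port Ω k) : (Ω × Fin U.N) × Fin k := (U.pv p, p.2.2)

/-- the reversal of darts in the port graph: darts at the root and darts to the root follow the
matching `M`. -/
def grev (U : UK H) (M : Port Ω k → Port Ω k) (d : (Ω × Fin U.N) × Fin k) :
    (Ω × Fin U.N) × Fin k :=
  if d.1.2 = U.u then U.pd (M (d.1.1, true, d.2))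
  else if d.1.2 = U.nb d.2 U.u then U.pd (M (d.1.1, false, d.2))
  else ((d.1.1, U.nb d.2 d.1.2), d.2)

theorem pd_vertex (U : UK H) (p : Port Ω k) : (U.pd p).1 = U.pv p := rfl

theorem grev_pd (U : UK H) (M : Port Ω k → Port Ω k) (p : Port Ω k) :
    U.grev M (U.pd p) = U.pd (M p) := by
  rcases p with ⟨ω, o, i⟩
  cases o
  · have h : U.nb i U.u ≠ U.u := U.nb_ne i U.u
    simp [grev, pd, pv, h]
  · simp [grev, pd, pv]

theorem grev_grev (U : UK H) {M : Port Ω k → Port Ω k} (hM : ∀ p, M (M p) = p)
    (d : (Ω × Fin U.N) × Fin k) : U.grev M (U.grev M d) = d := by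
  rcases d with ⟨⟨ω, κ⟩, i⟩
  by_cases h1 : κ = U.u
  · subst h1
    have h2 : (((ω, U.u), i) : (Ω × Fin U.N) × Fin k) = U.pd (ω, true, i) := by simp [pd, pv]
    rw [h2, grev_pd, grev_pd, hM]
  · by_cases h3 : κ = U.nb i U.u
    · subst h3
      have h2 : (((ω, U.nb i U.u), i) : (Ω × Fin U.N) × Fin k) = U.pd (ω, false, i) := by
        simp [pd, pv]
      rw [h2, grev_pd, grev_pd, hM]
    · have h4 : U.nb i κ ≠ U.u := by
        intro h
        exact h3 (by rw [← h, U.nb_nb])
      have h5 : U.nb i κ ≠ U.nb i U.u := by
        intro h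
        apply h1
        rw [← U.nb_nb i κ, h, U.nb_nb]
      simp [grev, h1, h3, h4, h5, U.nb_nb]

/-- the port graph -/
def PG (U : UK H) (M : Port Ω k → Port Ω k) (hM : ∀ p, M (M p) = p) : PN (Ω × Fin U.N) k :=
  ⟨U.grev M, U.grev_grev hM⟩

end UK

/-- the dart of `H` at a port -/
def pval {V Ω : Type} {k : ℕ} (H : PN V k) (Φ : Ω → Fr V k) (p : Port Ω k) : V × Fin k :=
  if p.2.1 then PN.dart (Φ p.1) p.2.2 else H.rev (PN.dart (Φ p.1) p.2.2)

/-! ### instances -/

/-- Instances of the constraint satisfaction problem: every clause has `k` places with a variable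
and a sign; `nxt` is a cyclic order of all the places. -/
structure Inst (Var C : Type) (k : ℕ) where
  /-- the variable and the sign at a place -/
  occ : C → Fin k → Var × Bool
  /-- cyclic order of the places -/
  nxt : Equiv.Perm (C × Fin k)
  trans : ∀ S : Set (C × Fin k), S.Nonempty → (∀ s ∈ S, nxt s ∈ S) → S = Set.univ

/-- signed value of a variable -/
def sg {V : Type} (b : Bool) (p : V × V) : V × V := if b then p else (p.2, p.1)

/-- a solution: the value of a variable is a pair of adjacent vertices of `H`; in each clause the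
values start at the same vertex and their ends are the neighbours of this vertex -/
def Inst.Sol {Var C V : Type} [DecidableEq V] {k : ℕ} (I : Inst Var C k) (H : PN V k)
    (val : Var → V × V) : Prop :=
  (∀ v, ∃ i, H.hd (val v).1 i = (val v).2) ∧
  ∀ c, ∃ x, (∀ i, (sg (I.occ c i).2 (val (I.occ c i).1)).1 = x) ∧
    ∀ y, (univ.filter fun i => (sg (I.occ c i).2 (val (I.occ c i).1)).2 = y).card = H.A x y

/-- Copies of the universal graph: one for every clause, four for every variable and place. In
`q v s a b`: `a = false` for the beginning and `a = true` for the end of the value of `v`;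
`b = false` for the copy that is joined to clauses, `b = true` for the copy in the ring. -/
inductive Cpy (Var C : Type) (k : ℕ) where
  /-- clause -/
  | cl (c : C)
  /-- variable -/
  | q (v : Var) (s : C × Fin k) (a b : Bool)
  deriving DecidableEq

/-- The matching of the ports (`k = m + 2`). -/
def Inst.M {Var C : Type} [DecidableEq Var] {m : ℕ} (I : Inst Var C (m + 2)) :
    Port (Cpy Var C (m + 2)) (m + 2) → Port (Cpy Var C (m + 2)) (m + 2)
  | (.cl c, o, i) =>
      -- outer ports (stars) go to the copy that ends the value, inner ports to the other one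
      (.q (I.occ c i).1 (c, i) (o == (I.occ c i).2) false, true, 0)
  | (.q v s a b, o, i) =>
      if i = 0 then
        if o = true then
          if b = true then
            (if a = true then (.q v (I.nxt s) false true, true, 0)
              else (.q v (I.nxt.symm s) true true, true, 0))
          else
            (if (I.occ s.1 s.2).1 = v then (.cl s.1, a == (I.occ s.1 s.2).2, s.2)
              else (.q v s (!a) false, true, 0))
        else (.q v s (!a) b, false, 0)
      else if i = 1 then (.q v s a (!b), !o, 1)
      else (.q v s a b, !o, i)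

end SDich
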