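import Pool.Agent.Lib.MP_e7d961_lc.PN

/-!
Statements of the pieces (`MP_e7d961_lc`).
-/

namespace SDich

open Finset HerCo CookLevin

theorem rot_trans (n : ℕ) (S : Set (Fin n)) (h0 : S.Nonempty) (h : ∀ s ∈ S, finRotate n s ∈ S) :
    S = Set.univ := by
  rcases n with _ | n
  · obtain ⟨s, _⟩ := h0; exact s.elim0
  obtain ⟨s, hs⟩ := h0
  have key : ∀ m : ℕ, s + (Fin.ofNat (n+1) m) ∈ S := by
    intro m
    induction m with
    | zero => simpa using hs
    | succ m ih =>
      have := h _ ih
      rw [finRotate_apply] at this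
      convert this using 1
      rw [add_assoc]
      congr 1
      apply Fin.ext
      simp [Fin.val_add, Fin.ofNat]
  ext t
  simp only [Set.mem_univ, iff_true]
  have := key (t - s).val
  have h2 : (Fin.ofNat (n+1) (t - s).val) = t - s := by
    apply Fin.ext
    simp [Fin.ofNat, Nat.mod_eq_of_lt (t-s).isLt]
  rwa [h2, add_sub_cancel] at this

/-- the cyclic order of the places -/
def ringP (m k : ℕ) : Equiv.Perm (Fin m × Fin k) :=
  finProdFinEquiv.trans ((finRotate (m * k)).trans finProdFinEquiv.symm)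

theorem ringP_trans {m k : ℕ} (S : Set (Fin m × Fin k)) (h0 : S.Nonempty)
    (h : ∀ s ∈ S, ringP m k s ∈ S) : S = Set.univ := by
  have h1 := rot_trans (m * k) (finProdFinEquiv '' S) (h0.image _) (by
    rintro _ ⟨s, hs, rfl⟩
    refine ⟨_, h s hs, ?_⟩
    simp only [ringP, Equiv.trans_apply, Equiv.apply_symm_apply])
  ext t
  simp only [Set.mem_univ, iff_true]
  have : finProdFinEquiv t ∈ finProdFinEquiv '' S := by rw [h1]; trivial
  obtain ⟨s, hs, hst⟩ := this
  rwa [finProdFinEquiv.injective hst] at hs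

/-! ### A. universal graphs, port graphs -/

/-- [uk] The universal graph.  Take `T = Fr → Fr` (finite) and the vertices `T × (Fin k → Bool)`,
`nb i (τ, b) = (theta i ∘ τ, b with the coordinate i changed)`, root `(id, 0)`,
`F p (τ, b) = τ p` (onto: take constant `τ`); `theta i` is an involution: if `F = (x, π)` and `(y, j) = rev (x, π i)` then
`theta i F = (y, swap (π i) j * π)`.  Transport to `Fin N`. -/
def S_uk : Prop := ∀ (V : Type) [Finite V] (k : ℕ) (H : PN V k), Nonempty (UK H)

/-- [anti] The copies of the universal graph without the root are exact absent vertices.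
Proof: fix `ω` and a frame `p = (x, π)`, `c κ = (F p κ).1`.  Count the pairs `(κ, j)` with
`κ ≠ u`: `∑_{κ ≠ u} A (c κ) (f (ω, κ)) = |{(κ, j) : κ ≠ u, c (nb j κ) = f (ω, κ)}` and, by the
symmetry of `A` and since `f` is a colouring, `= |{(κ, j) : κ ≠ u, f (hd (ω, κ) j) = c κ}`.  The
pairs with `nb j κ ≠ u` cancel (`(κ, j) ↦ (nb j κ, j)`), so
`|{i : f (ω, nb i u) = x} = |{i : Y i = c (nb i u)}`, where `Y i = f (U.pv (M (ω, false, i)))` and
`c (nb i u) = hd x (π i)`.  The left side does not depend on `π`.  Suppose `Y i ≠ Y j`.  Take `x`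
adjacent to `Y i`, a port of `x` to `Y i` and, by `NC`, a port of `x` to some `y' ≠ Y i`; take
`π` with these ports at `i`, `j` and `π * swap i j`: comparing gives `1 + [..] = 0`.  So all
`Y i = Z`, and the identity reads `|{i : f (ω, nb i u) = x} = A x Z = A Z x`. -/
def S_anti : Prop := ∀ (V : Type) [Fintype V] [DecidableEq V] (k : ℕ) (H : PN V k) (U : UK H)
  (Ω : Type) (M : Port Ω k → Port Ω k) (hM : ∀ p, M (M p) = p) (f : Ω × Fin U.N → V),
  H.NC → (U.PG M hM).Col H f → ∀ ω, ∃ Z, (∀ i, f (U.pv (M (ω, false, i))) = Z) ∧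
    ∀ y, (univ.filter fun i => f (ω, U.nb i U.u) = y).card = H.A Z y

/-- [comp] Frames at the copies that agree at matched ports give a covering:
`(ω, κ) ↦ U.F (Φ ω) κ`. -/
def S_comp : Prop := ∀ (V : Type) (k : ℕ) (H : PN V k) (U : UK H)
  (Ω : Type) [Nonempty Ω] (M : Port Ω k → Port Ω k) (hM : ∀ p, M (M p) = p) (Φ : Ω → Fr V k),
  (∀ p, pval H Φ (M p) = H.rev (pval H Φ p)) → (U.PG M hM).Cov H

/-- [simp] The port graph is simple: links go to other copies or from `(ω, o, i)` to
`(ω, !o, i)`, and there is at most one link between outer ports of two given copies. -/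
def S_simp : Prop := ∀ (V : Type) (k : ℕ) (H : PN V k) (U : UK H)
  (Ω : Type) (M : Port Ω k → Port Ω k) (hM : ∀ p, M (M p) = p),
  (∀ p, (M p).1 ≠ p.1 ∨ M p = (p.1, !p.2.1, p.2.2)) →
  (∀ p p', p.1 = p'.1 → p.2.1 = true → p'.2.1 = true → (M p).1 = (M p').1 →
    (M p).2.1 = true → (M p').2.1 = true → p = p') →
  (U.PG M hM).Simple

/-! ### B. instances -/

/-- [minv] `M` is an involution. -/
def S_minv : Prop := ∀ (Var C : Type) [DecidableEq Var] (m : ℕ) (I : Inst Var C (m + 2)) (p),
  I.M (I.M p) = p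

/-- [msim] `M` satisfies the hypotheses of `S_simp`. -/
def S_msim : Prop := ∀ (Var C : Type) [DecidableEq Var] (m : ℕ) (I : Inst Var C (m + 2)),
  (∀ p, (I.M p).1 ≠ p.1 ∨ I.M p = (p.1, !p.2.1, p.2.2)) ∧
  (∀ p p', p.1 = p'.1 → p.2.1 = true → p'.2.1 = true → (I.M p).1 = (I.M p').1 →
    (I.M p).2.1 = true → (I.M p').2.1 = true → p = p')

/-- [qsnd] The four copies `q v s a b` of a place carry one pair `(x 0, x 1)` of adjacent vertices:
`x a` is the colour of the root of `q v s a b`, and the vertex matched to the outer port `0` of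
`q v s a b` has the colour `x (!a)`.
Proof (`k = m + 3`; write `X a b` for the colour of the root of `q v s a b`, `D a b i` for the
colour of its vertex `nb i u`, `Y a b` for the colour of the vertex matched to its outer port
`0`): by `S_anti` all the vertices matched to the inner ports have the same colour `Z a b`; these
are `D (!a) b 0` (port `0`), `X a (!b)` (port `1`), `X a b` (ports `i ≥ 2`).  So
`X a false = X a true = D (!a) b 0 =: x a`.  The neighbours of the root of `q v s a b` have the
colours `Y a b`, `D a (!b) 1`, `D a b i` (`i ≥ 2`), and together they are the neighbours of `x a`;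
the `D a b i` (all `i`) are also, by `S_anti`, the neighbours of `Z a b = x a`.  Summing over `b`,
the multisets `{Y a false, Y a true}` and `{D a false 0, D a true 0} = {x (!a), x (!a)}` are
equal. -/
def S_qsnd : Prop := S_anti → ∀ (V : Type) [Fintype V] [DecidableEq V] (m : ℕ)
  (H : PN V (m + 3)) (U : UK H) (Var C : Type) [DecidableEq Var] (I : Inst Var C (m + 3))
  (hM : ∀ p, I.M (m := m + 1) (I.M (m := m + 1) p) = p) (f : Cpy Var C (m + 3) × Fin U.N → V),
  H.NC → (U.PG (I.M (m := m + 1)) hM).Col H f → ∀ v s, ∃ x : Bool → V,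
    (∀ a b, f (.q v s a b, U.u) = x a) ∧
    (∀ a b, f (U.pv (I.M (m := m + 1) (.q v s a b, true, 0))) = x (!a)) ∧
    ∃ i, H.hd (x false) i = x true

/-- [isnd] A colouring of the port graph gives a solution: the value of `v` is the pair
`(x false, x true)` of `S_qsnd`, which is the same for all places `s` because of the ring; the
outer ports of the copy `cl c` are matched to the copies `q _ _ _ false` of its variables. -/
def S_isnd : Prop := S_qsnd → S_anti → ∀ (V : Type) [Fintype V] [DecidableEq V] (m : ℕ)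
  (H : PN V (m + 3)) (U : UK H) (Var C : Type) [DecidableEq Var] [Nonempty C]
  (I : Inst Var C (m + 3))
  (hM : ∀ p, I.M (m := m + 1) (I.M (m := m + 1) p) = p) (f : Cpy Var C (m + 3) × Fin U.N → V),
  H.NC → (U.PG (I.M (m := m + 1)) hM).Col H f → ∃ val, I.Sol H val

/-- [icmp] A solution gives frames.  For a clause `c` with vertex `x` choose a bijection
`σ c : Fin k → ports of x` with `hd x (σ c i) =` the end of the signed value at `i`.  For a variable
`v` choose a dart `γ v` from `(val v).1` to `(val v).2`; for a place `s = (c, i)` of `v` let `α` be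
the dart `(x, σ c i)` if the sign is `true` and its reversal otherwise, for the other places let
`α = γ v`.  The frames: `cl c ↦ (x, σ c)`; `q v s a b ↦` a frame whose port `0` is the dart `δ` or its
reversal (`a = true`), where `δ = α` for `b = false` and `δ = γ v` for `b = true`, whose port `1` is
a dart `e a` different from the darts at port `0` for both `b` (`k ≥ 3`); it does not depend on
`b`. -/
def S_icmp : Prop := ∀ (V : Type) [Fintype V] [DecidableEq V] (m : ℕ)
  (H : PN V (m + 3)) (Var C : Type) [DecidableEq Var] (I : Inst Var C (m + 3)) (val),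
  I.Sol H val → ∃ Φ : Cpy Var C (m + 3) → Fr V (m + 3),
    ∀ p, pval H Φ (I.M (m := m + 1) p) = H.rev (pval H Φ p)

/-! ### C. instances as lists -/

/-- list version of solutions -/
def LSol {n k : ℕ} (H : PN (Fin n) k) (nv : ℕ) (cls : List (List (ℕ × Bool)))
    (val : ℕ → Fin n × Fin n) : Prop :=
  (∀ v < nv, ∃ i, H.hd (val v).1 i = (val v).2) ∧
  ∀ cl ∈ cls, ∃ x, (∀ i : Fin k, (sg (cl.getD i (0, true)).2 (val (cl.getD i (0, true)).1)).1 = x) ∧
    ∀ y, (univ.filter fun i : Fin k =>
      (sg (cl.getD i (0, true)).2 (val (cl.getD i (0, true)).1)).2 = y).card = H.A x y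

/-- The conditions on a list of clauses. -/
def Good (k nv : ℕ) (cls : List (List (ℕ × Bool))) : Prop :=
  cls ≠ [] ∧ (∀ cl ∈ cls, cl.length = k) ∧ ∀ cl ∈ cls, ∀ l ∈ cl, l.1 < nv

/-- the instance of a list of clauses -/
def instOf (k nv : ℕ) (cls : List (List (ℕ × Bool))) (hv : 0 < nv) :
    Inst (Fin nv) (Fin cls.length) k where
  occ c i := (⟨((cls.getD c []).getD i (0, true)).1 % nv, Nat.mod_lt _ hv⟩,
    ((cls.getD c []).getD i (0, true)).2)
  nxt := ringP cls.length k
  trans := fun S h0 h => ringP_trans S h0 h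

/-- [lsol] The two notions of solutions agree. -/
def S_lsol : Prop := ∀ (n k nv : ℕ) (H : PN (Fin n) k) (cls : List (List (ℕ × Bool)))
  (hv : 0 < nv), Good k nv cls →
  ((∃ val, LSol H nv cls val) ↔ ∃ val, (instOf k nv cls hv).Sol H val)

/-! ### D. from triples to clauses (`H` has the vertices `0, ..., n - 1`) -/

/-- number of a dart -/
def idx {n k : ℕ} (d : Fin n × Fin k) : ℕ := d.1 * k + d.2

/-- the signed variable of a dart: one variable for a dart and its reversal -/
def rep {n k : ℕ} (H : PN (Fin n) k) (d : Fin n × Fin k) : ℕ × Bool :=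
  (min (idx d) (idx (H.rev d)), decide (idx d ≤ idx (H.rev d)))

/-- as `rep`, but the sign of semi-edges is changed -/
def rep' {n k : ℕ} (H : PN (Fin n) k) (d : Fin n × Fin k) : ℕ × Bool :=
  if H.rev d = d then (idx d, false) else rep H d

/-- the clauses that describe `H` -/
def constC {n k : ℕ} (H : PN (Fin n) k) : List (List (ℕ × Bool)) :=
  (List.finRange n).flatMap fun x =>
    [(List.finRange k).map fun i => rep H (x, i), (List.finRange k).map fun i => rep' H (x, i)]

/-- the variable of `w` -/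
def tv (n k w : ℕ) : ℕ := n * k + w

/-- auxiliary variables -/
def lk (n k tN w j : ℕ) : ℕ := n * k + tN + 2 * k * w + j

/-- the data of `H` used by the reduction: the signed variables of the ports `pos 0` and
`pos 3, pos 4, ...` of `x0` -/
def w0 {n k : ℕ} (H : PN (Fin n) (k + 3)) (x0 : Fin n) (pos : Equiv.Perm (Fin (k + 3))) :
    ℕ × Bool := rep H (x0, pos 0)

/-- see `w0` -/
def rest0 {n k : ℕ} (H : PN (Fin n) (k + 3)) (x0 : Fin n) (pos : Equiv.Perm (Fin (k + 3))) :
    List (ℕ × Bool) := (List.finRange k).map fun j => rep H (x0, pos (Fin.natAdd 3 j |>.cast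
      (Nat.add_comm 3 k)))

/-- The clauses: the values of the variables `tv w` start at the vertex `x0`, and the ends of the
values of the three variables of a triple are the ends of the ports `pos 0, pos 1, pos 2`.
`C0`, `a0`, `r0` stand for `constC H`, `w0 H x0 pos`, `rest0 H x0 pos`; `K = k + 3`. -/
def clsOf (n K : ℕ) (C0 : List (List (ℕ × Bool))) (a0 : ℕ × Bool) (r0 : List (ℕ × Bool)) (tN : ℕ)
    (T : List (ℕ × ℕ × ℕ)) : List (List (ℕ × Bool)) :=
  C0 ++ ((List.range tN).flatMap fun w =>
    [(tv n K w, true) :: (List.range (K - 1)).map fun j => (lk n K tN w j, true),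
     a0 :: (lk n K tN w 0, true) :: (List.range (K - 2)).map fun j => (lk n K tN w (K + j), true)])
  ++ T.map fun t => (tv n K t.1, true) :: (tv n K t.2.1, true) :: (tv n K t.2.2, true) :: r0

/-- number of variables -/
def nvOf (n K tN : ℕ) : ℕ := n * K + tN + 2 * K * tN

/-- the clauses for `H` -/
def clsH {n k : ℕ} (H : PN (Fin n) (k + 3)) (x0 : Fin n) (pos : Equiv.Perm (Fin (k + 3)))
    (tN : ℕ) (T : List (ℕ × ℕ × ℕ)) : List (List (ℕ × Bool)) :=
  clsOf n (k + 3) (constC H) (w0 H x0 pos) (rest0 H x0 pos) tN T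

/-- [good] -/
def S_good : Prop := ∀ (n k : ℕ) (H : PN (Fin n) (k + 3)) (x0 : Fin n)
  (pos : Equiv.Perm (Fin (k + 3))) (tN : ℕ) (T : List (ℕ × ℕ × ℕ)),
  (∀ t ∈ T, t.1 < tN ∧ t.2.1 < tN ∧ t.2.2 < tN) →
  Good (k + 3) (nvOf n (k + 3) tN) (clsH H x0 pos tN T)

/-- [rigid] There is a vertex `x0` such that every colouring `g` of `H` by `H` separates the
different neighbours of `x0`: take a nonempty set `S` of vertices, closed under neighbours, of
minimal size, and `x0 ∈ S`; the image of `S` under `g` is closed under neighbours, so it has at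
least `|S|` elements, and `g` is injective on `S`. -/
def S_rigid : Prop := ∀ (n k : ℕ) (H : PN (Fin n) k), 0 < n → ∃ x0 : Fin n, ∀ g : Fin n → Fin n,
  (∀ x y, (univ.filter fun i => g (H.hd x i) = y).card = H.A (g x) y) →
  ∀ i j, g (H.hd x0 i) = g (H.hd x0 j) → H.hd x0 i = H.hd x0 j

/-- [pos] By `NC` and `3 ≤ k` there are three ports at `x0`, the third of which leads to a vertex
different from the ends of the other two. -/
def S_pos : Prop := ∀ (n k : ℕ) (H : PN (Fin n) (k + 3)), H.NC → ∀ x0 : Fin n,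
  ∃ pos : Equiv.Perm (Fin (k + 3)), H.hd x0 (pos 2) ≠ H.hd x0 (pos 0) ∧
    H.hd x0 (pos 2) ≠ H.hd x0 (pos 1)

/-- exactly one of three is true -/
def One (a b c : Bool) : Prop :=
  (a = true ∧ b = false ∧ c = false) ∨ (a = false ∧ b = true ∧ c = false) ∨
    (a = false ∧ b = false ∧ c = true)

/-- [tsnd1] The clauses `constC H` give a colouring `g` of `H` by `H`, and the signed value of
the dart `(x, i)` is `(g x, g (hd x i))`.  (For a semi-edge at `x`: some port of `x` is not a
semi-edge by `NC`, so the common first vertex of the clause with `rep'` is also `g x`.) -/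
def S_tsnd1 : Prop := ∀ (n k : ℕ) (H : PN (Fin n) k) (nv : ℕ) (cls : List (List (ℕ × Bool))) (val),
  H.NC → (∀ cl ∈ constC H, cl ∈ cls) → LSol H nv cls val → ∃ g : Fin n → Fin n,
  (∀ x y, (univ.filter fun i => g (H.hd x i) = y).card = H.A (g x) y) ∧
  ∀ x i, sg (rep H (x, i)).2 (val (rep H (x, i)).1) = (g x, g (H.hd x i))

/-- [tsnd2] From a solution: `t w` says that the value of `tv w` ends at `g (hd x0 (pos 2))`. -/
def S_tsnd2 : Prop := S_tsnd1 → ∀ (n k : ℕ) (H : PN (Fin n) (k + 3)) (x0 : Fin n)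
  (pos : Equiv.Perm (Fin (k + 3))) (tN : ℕ) (T : List (ℕ × ℕ × ℕ)) (val),
  H.NC → (∀ g : Fin n → Fin n,
    (∀ x y, (univ.filter fun i => g (H.hd x i) = y).card = H.A (g x) y) →
    ∀ i j, g (H.hd x0 i) = g (H.hd x0 j) → H.hd x0 i = H.hd x0 j) →
  H.hd x0 (pos 2) ≠ H.hd x0 (pos 0) → H.hd x0 (pos 2) ≠ H.hd x0 (pos 1) →
  (∀ t ∈ T, t.1 < tN ∧ t.2.1 < tN ∧ t.2.2 < tN) →
  LSol H (nvOf n (k + 3) tN) (clsH H x0 pos tN T) val →
  ∃ t : ℕ → Bool, ∀ a ∈ T, One (t a.1) (t a.2.1) (t a.2.2)

/-- [tcmp] From a rainbow colouring `ρ`: the value of the variable of a dart `d` with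
`idx d ≤ idx (rev d)` is `(tail, head)` of `d`, the value of `tv w` is
`(x0, hd x0 (pos (ρ w)))`; the auxiliary variables of `w`: let `q` be a port different from
`pos 0` and `pos (ρ w)`; `lk w 0` has the value `(x0, hd x0 q)`, `lk w j` for `1 ≤ j < K - 1` are the
ports different from `pos (ρ w)` and `q`, and `lk w (K + j)` for `j < K - 2` are the ports different
from `pos 0` and `q`. -/
def S_tcmp : Prop := ∀ (n k : ℕ) (H : PN (Fin n) (k + 3)) (x0 : Fin n)
  (pos : Equiv.Perm (Fin (k + 3))) (tN : ℕ) (T : List (ℕ × ℕ × ℕ)) (ρ : ℕ → Fin 3),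
  (∀ t ∈ T, t.1 < tN ∧ t.2.1 < tN ∧ t.2.2 < tN) →
  (∀ a ∈ T, ρ a.1 ≠ ρ a.2.1 ∧ ρ a.1 ≠ ρ a.2.2 ∧ ρ a.2.1 ≠ ρ a.2.2) →
  ∃ val, LSol H (nvOf n (k + 3) tN) (clsH H x0 pos tN T) val

/-! ### E. from formulas to graph 3-colourings and to triples -/

/-- number of variables of a formula -/
def cnv (φ : Cnf) : ℕ := (φ.flatMap fun cl => cl.flatMap fun l => List.replicate l.1 ()).length + 1

/-- a bound for the lengths of the clauses -/
def cwd (φ : Cnf) : ℕ := (φ.flatMap fun cl => cl).length + 1

/-- the vertex of a literal; the vertices `0, 1, 2` are the colours neutral, true, false -/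
def lv (l : ℕ × Bool) : ℕ := if l.2 then 3 + 2 * l.1 else 4 + 2 * l.1

/-- the vertices of the gadget for the literal number `t` of the clause number `c` -/
def gv (φ : Cnf) (c t r : ℕ) : ℕ := 3 + 2 * cnv φ + 3 * (c * cwd φ + t) + r

/-- the output of the gadgets before the literal number `t` -/
def ov (φ : Cnf) (c t : ℕ) : ℕ := if t = 0 then 2 else gv φ c (t - 1) 2

/-- the edges of the graph -/
def colE (φ : Cnf) : List (ℕ × ℕ) :=
  [(0, 1), (0, 2), (1, 2)] ++
  ((List.range (cnv φ)).flatMap fun x =>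
    [(lv (x, true), lv (x, false)), (0, lv (x, true)), (0, lv (x, false))]) ++
  ((List.range φ.length).flatMap fun c =>
    (((List.range (φ.getD c []).length).flatMap fun t =>
      [(ov φ c t, gv φ c t 0), (lv ((φ.getD c []).getD t (0, true)), gv φ c t 1),
       (gv φ c t 0, gv φ c t 1), (gv φ c t 0, gv φ c t 2), (gv φ c t 1, gv φ c t 2),
       (0, gv φ c t 2)]) ++ [(2, ov φ c (φ.getD c []).length)]))

/-- number of vertices -/
def colN (φ : Cnf) : ℕ := 3 + 2 * cnv φ + 3 * (φ.length * cwd φ) + 3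

/-- [col1] -/
def S_col1 : Prop := ∀ φ : Cnf, Sat φ → ∃ c : ℕ → Fin 3, ∀ e ∈ colE φ, c e.1 ≠ c e.2

/-- [col2] -/
def S_col2 : Prop := ∀ φ : Cnf, (∃ c : ℕ → Fin 3, ∀ e ∈ colE φ, c e.1 ≠ c e.2) → Sat φ

/-- [colb] -/
def S_colb : Prop := ∀ φ : Cnf, ∀ e ∈ colE φ, e.1 < colN φ ∧ e.2 < colN φ

/-- the triples: `3 v + c` says that the vertex `v` has the colour `c` -/
def tri (m : ℕ) (E : List (ℕ × ℕ)) : List (ℕ × ℕ × ℕ) :=
  ((List.range m).map fun v => (3 * v, 3 * v + 1, 3 * v + 2)) ++
  ((List.range E.length).flatMap fun e => (List.range 3).map fun c =>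
    (3 * (E.getD e (0, 0)).1 + c, 3 * (E.getD e (0, 0)).2 + c, 3 * m + 3 * e + c))

/-- number of variables -/
def triN (m : ℕ) (E : List (ℕ × ℕ)) : ℕ := 3 * m + 3 * E.length

/-- [tri1] With a 3-colouring `κ` let `ρ (3 v + c) = c - κ v` (mod 3); the third variable of an
edge triple gets the remaining colour. -/
def S_tri1 : Prop := ∀ (m : ℕ) (E : List (ℕ × ℕ)), (∀ e ∈ E, e.1 < m ∧ e.2 < m) →
  (∃ c : ℕ → Fin 3, ∀ e ∈ E, c e.1 ≠ c e.2) →
  ∃ ρ : ℕ → Fin 3, ∀ a ∈ tri m E, ρ a.1 ≠ ρ a.2.1 ∧ ρ a.1 ≠ ρ a.2.2 ∧ ρ a.2.1 ≠ ρ a.2.2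

/-- [tri2] -/
def S_tri2 : Prop := ∀ (m : ℕ) (E : List (ℕ × ℕ)), (∀ e ∈ E, e.1 < m ∧ e.2 < m) →
  (∃ t : ℕ → Bool, ∀ a ∈ tri m E, One (t a.1) (t a.2.1) (t a.2.2)) →
  ∃ c : ℕ → Fin 3, ∀ e ∈ E, c e.1 ≠ c e.2

/-- [trib] -/
def S_trib : Prop := ∀ (m : ℕ) (E : List (ℕ × ℕ)), (∀ e ∈ E, e.1 < m ∧ e.2 < m) →
  ∀ t ∈ tri m E, t.1 < triN m E ∧ t.2.1 < triN m E ∧ t.2.2 < triN m E

/-! ### F. the code of the port graph -/

/-- tuples that name the vertices of the port graph: `((is a variable copy, variable), place,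
(a, b), vertex of the universal graph)` -/
abbrev Tp := ((Bool × ℕ) × (ℕ × ℕ) × (Bool × Bool)) × ℕ

/-- the name of a copy -/
def cname {nv C k : ℕ} : Cpy (Fin nv) (Fin C) k → (Bool × ℕ) × (ℕ × ℕ) × (Bool × Bool)
  | .cl c => ((false, 0), (c.1, 0), (false, false))
  | .q v s a b => ((true, v.1), (s.1.1, s.2.1), (a, b))

/-- the name of a vertex -/
def tup {nv C k N : ℕ} (w : Cpy (Fin nv) (Fin C) k × Fin N) : Tp := (cname w.1, w.2.1)

/-- the names of all vertices -/
def verts (k N nv C : ℕ) : List Tp :=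
  ((List.range C).flatMap fun c => (List.range N).map fun κ =>
    (((false, 0), (c, 0), (false, false)), κ)) ++
  ((List.range nv).flatMap fun v => (List.range C).flatMap fun c => (List.range k).flatMap fun i =>
    [(false, false), (false, true), (true, false), (true, true)].flatMap fun ab =>
      (List.range N).map fun κ => (((true, v), (c, i), ab), κ))

/-- next place -/
def nextT (k C : ℕ) (s : ℕ × ℕ) : ℕ × ℕ :=
  if s.2 + 1 < k then (s.1, s.2 + 1) else if s.1 + 1 < C then (s.1 + 1, 0) else (0, 0)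

/-- previous place -/
def prevT (k C : ℕ) (s : ℕ × ℕ) : ℕ × ℕ :=
  if 0 < s.2 then (s.1, s.2 - 1) else if 0 < s.1 then (s.1 - 1, k - 1) else (C - 1, k - 1)

/-- the literal at a place -/
def litT (cls : List (List (ℕ × Bool))) (s : ℕ × ℕ) : ℕ × Bool :=
  (cls.getD s.1 []).getD s.2 (0, true)

/-- the matching of ports on names -/
def MT (k : ℕ) (cls : List (List (ℕ × Bool))) (q : (Bool × ℕ) × (ℕ × ℕ) × (Bool × Bool))
    (o : Bool) (i : ℕ) : ((Bool × ℕ) × (ℕ × ℕ) × (Bool × Bool)) × Bool × ℕ :=
  if q.1.1 = false then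
    (((true, (litT cls (q.2.1.1, i)).1), (q.2.1.1, i), (o == (litT cls (q.2.1.1, i)).2, false)),
      true, 0)
  else if i = 0 then
    if o = true then
      if q.2.2.2 = true then
        if q.2.2.1 = true then
          ((q.1, nextT k cls.length q.2.1, (false, true)), true, 0)
        else ((q.1, prevT k cls.length q.2.1, (true, true)), true, 0)
      else
        if (litT cls q.2.1).1 = q.1.2 then
          (((false, 0), (q.2.1.1, 0), (false, false)), q.2.2.1 == (litT cls q.2.1).2, q.2.1.2)
        else ((q.1, q.2.1, (!q.2.2.1, false)), true, 0)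
    else ((q.1, q.2.1, (!q.2.2.1, q.2.2.2)), false, 0)
  else if i = 1 then ((q.1, q.2.1, (q.2.2.1, !q.2.2.2)), !o, 1)
  else (q, !o, i)

/-- the neighbour table of the universal graph -/
def nbT (tab : List (List ℕ)) (i κ : ℕ) : ℕ := (tab.getD i []).getD κ 0

/-- heads of darts on names; `u` is the root -/
def hdT (k u : ℕ) (tab : List (List ℕ)) (cls : List (List (ℕ × Bool))) (w : Tp) (i : ℕ) : Tp :=
  if w.2 = u then ((MT k cls w.1 true i).1,
    if (MT k cls w.1 true i).2.1 = true then u else nbT tab (MT k cls w.1 true i).2.2 u)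
  else if w.2 = nbT tab i u then ((MT k cls w.1 false i).1,
    if (MT k cls w.1 false i).2.1 = true then u else nbT tab (MT k cls w.1 false i).2.2 u)
  else (w.1, nbT tab i w.2)

/-- adjacency of names -/
def adjT (k u : ℕ) (tab : List (List ℕ)) (cls : List (List (ℕ × Bool))) (w w' : Tp) : Bool :=
  (List.range k).any fun i => decide (hdT k u tab cls w i = w')

/-- the table of a universal graph -/
def tabOf {V : Type} {k : ℕ} {H : PN V k} (U : UK H) : List (List ℕ) :=
  (List.finRange k).map fun i => (List.finRange U.N).map fun κ => (U.nb i κ).1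

/-- a row of the incidence matrix -/
def rowC (N a b : ℕ) : List Bool :=
  (List.range N).flatMap fun c => [decide (c = a ∨ c = b), false]

/-- the code of the simple graph with vertices `0, ..., N - 1` -/
def codeG (N : ℕ) (adj : ℕ → ℕ → Bool) : List Bool :=
  List.replicate N true ++ false ::
    ((List.range N).flatMap fun a => (List.range N).flatMap fun b =>
      if decide (a < b) && adj a b then rowC N a b else [])

/-- the code of the port graph -/
def theCode (k N u : ℕ) (tab : List (List ℕ)) (nv : ℕ) (cls : List (List (ℕ × Bool))) :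
    List Bool :=
  codeG (verts k N nv cls.length).length fun a b =>
    adjT k u tab cls ((verts k N nv cls.length).getD a (((false, 0), (0, 0), (false, false)), 0))
      ((verts k N nv cls.length).getD b (((false, 0), (0, 0), (false, false)), 0))

/-- [code] -/
def S_code : Prop := ∀ (N : ℕ) (adj : ℕ → ℕ → Bool), 0 < N →
  IsCode (codeG N adj) ∧ numV (codeG N adj) = N ∧
  ∀ h : IsCode (codeG N adj), (graphOf _ h).Simple ∧
    ∀ a b : Fin (numV (codeG N adj)), (∃ e, (graphOf _ h).ends e = {a, b}) ↔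
      ((a : ℕ) < b ∧ adj a b = true) ∨ ((b : ℕ) < a ∧ adj b a = true)

/-- [hdt] The names follow the port graph. -/
def S_hdt : Prop := ∀ (n m : ℕ) (H : PN (Fin n) (m + 3)) (U : UK H) (nv : ℕ)
  (cls : List (List (ℕ × Bool))) (hv : 0 < nv),
  Good (m + 3) nv cls → ∀ (hM : ∀ p, (instOf (m + 3) nv cls hv).M (m := m + 1)
    ((instOf (m + 3) nv cls hv).M (m := m + 1) p) = p)
  (w : Cpy (Fin nv) (Fin cls.length) (m + 3) × Fin U.N) (i : Fin (m + 3)),
  hdT (m + 3) U.u (tabOf U) cls (tup w) i =
    tup ((U.PG ((instOf (m + 3) nv cls hv).M (m := m + 1)) hM).hd w i)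

/-- [verts] The list of the names: no repetitions, and it consists of the names of all
vertices. -/
def S_verts : Prop := ∀ (k N nv C : ℕ), (verts k N nv C).Nodup ∧
  (∀ w : Cpy (Fin nv) (Fin C) k × Fin N, tup w ∈ verts k N nv C) ∧
  (∀ t ∈ verts k N nv C, ∃ w : Cpy (Fin nv) (Fin C) k × Fin N, tup w = t) ∧
  Function.Injective (tup : Cpy (Fin nv) (Fin C) k × Fin N → Tp)

/-- The graph `G` is the simple graph of `P`. -/
def Realizes {W : Type} {k : ℕ} (G : Gr) (P : PN W k) (φ : G.V ≃ W) : Prop :=
  G.Simple ∧ ∀ a b, (∃ e, G.ends e = {a, b}) ↔ ∃ i, P.hd (φ a) i = φ b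

/-- [real] -/
def S_real : Prop := S_code → S_hdt → S_verts →
  ∀ (n m : ℕ) (H : PN (Fin n) (m + 3)) (U : UK H) (nv : ℕ)
  (cls : List (List (ℕ × Bool))) (hv : 0 < nv),
  Good (m + 3) nv cls → ∀ (hM : ∀ p, (instOf (m + 3) nv cls hv).M (m := m + 1)
    ((instOf (m + 3) nv cls hv).M (m := m + 1) p) = p),
  (U.PG ((instOf (m + 3) nv cls hv).M (m := m + 1)) hM).Simple →
  ∃ (h : IsCode (theCode (m + 3) U.N U.u (tabOf U) nv cls))
    (φ : (graphOf _ h).V ≃ Cpy (Fin nv) (Fin cls.length) (m + 3) × Fin U.N),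
    Realizes (graphOf _ h) (U.PG ((instOf (m + 3) nv cls hv).M (m := m + 1)) hM) φ

/-! ### G. graphs and port numbers -/

/-- port numbers of a `k`-regular graph -/
structure Ports (H : Gr) (k n : ℕ) where
  /-- the vertices -/
  φ : H.V ≃ Fin n
  /-- the graph with numbered ports -/
  P : PN (Fin n) k
  /-- the edge of a dart -/
  ed : Fin n × Fin k → H.E
  ed_rev : ∀ d, ed (P.rev d) = ed d
  ends_ed : ∀ d, H.ends (ed d) =
    if P.rev d = d then {φ.symm d.1} else {φ.symm d.1, φ.symm (P.rev d).1}
  cnt : ∀ x e, (univ.filter fun i => ed (φ x, i) = e).card = (H.ends e).count x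

/-- [ports] The darts are the pairs of an edge `e` and a position in the list of its ends; the
reversal changes the position (if there are two). -/
def S_ports : Prop := ∀ (H : Gr) (k : ℕ), H.Regular k →
  Nonempty (Ports H k (Fintype.card H.V))

/-- [nc] -/
def S_nc : Prop := ∀ (H : Gr) (k n : ℕ) (R : Ports H k n),
  (∀ x, ∃ y z, y ≠ z ∧ H.Nbr x y ∧ H.Nbr x z) → R.P.NC

/-- [conn] If all neighbours of `x` are equal to `y`, then either `y = x` and `{x}` is a component,
or `y ≠ x`, the `k` ends at `x` belong to ordinary edges `xy`, there are no other edges at `y`, and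
`H` is a dipole. -/
def S_conn : Prop := ∀ (H : Gr) (k : ℕ), 0 < k → H.Regular k → H.Connected →
  2 ≤ Fintype.card H.V → ¬ H.Dipole → ∀ x, ∃ y z, y ≠ z ∧ H.Nbr x y ∧ H.Nbr x z

/-- [cov] -/
def S_cov : Prop := ∀ (H : Gr) (k n : ℕ) (R : Ports H k n) (G : Gr) (W : Type) (P : PN W k)
  (φ : G.V ≃ W), P.Simple → Realizes G P φ → P.Cov R.P → G.Covers H

/-- [colr] -/
def S_colr : Prop := ∀ (H : Gr) (k n : ℕ) (R : Ports H k n) (G : Gr) (W : Type) (P : PN W k)
  (φ : G.V ≃ W), P.Simple → Realizes G P φ → G.Covers H → ∃ f, P.Col R.P f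

/-! ### H. polynomial time -/

/-- [fpcol] -/
def S_fpcol : Prop := ∀ (α : Type) [Enc α] (φ : α → Cnf), FP .poly φ →
  FP .poly (fun a => colE (φ a)) ∧ FP .poly (fun a => colN (φ a))

/-- [fptri] -/
def S_fptri : Prop := ∀ (α : Type) [Enc α] (m : α → ℕ) (E : α → List (ℕ × ℕ)),
  FP .poly m → FP .poly E → FP .poly (fun a => tri (m a) (E a)) ∧
    FP .poly (fun a => triN (m a) (E a))

/-- [fpcls] -/
def S_fpcls : Prop := ∀ (n K : ℕ) (C0 : List (List (ℕ × Bool))) (a0 : ℕ × Bool)
  (r0 : List (ℕ × Bool)) (α : Type) [Enc α] (tN : α → ℕ) (T : α → List (ℕ × ℕ × ℕ)),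
  FP .poly tN → FP .poly T → FP .poly (fun a => clsOf n K C0 a0 r0 (tN a) (T a)) ∧
    FP .poly (fun a => nvOf n K (tN a))

/-- [fpcode] -/
def S_fpcode : Prop := ∀ (k N u : ℕ) (tab : List (List ℕ)) (α : Type) [Enc α] (nv : α → ℕ)
  (cls : α → List (List (ℕ × Bool))), FP .poly nv → FP .poly cls →
  FP .poly (fun a => theCode k N u tab (nv a) (cls a))

/-! ### I. membership in NP -/

/-- the sum of `f a` over the `a < N` with `p a` -/
def sumB (N : ℕ) (p : ℕ → Bool) (f : ℕ → ℕ) : ℕ :=
  ((List.range N).flatMap fun a => if p a then List.replicate (f a) () else []).length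

/-- `IsCode` as a Boolean -/
def codeB (s : List Bool) : Bool :=
  decide (0 < numV s) && decide (s.length = numV s + 1 + numE s * (2 * numV s)) &&
  (List.range (numE s)).all fun j =>
    decide (sumB (numV s) (fun _ => true) (entry s j) = 1) ||
    decide (sumB (numV s) (fun _ => true) (entry s j) = 2)

/-- every edge is ordinary, as a Boolean -/
def ordB (s : List Bool) : Bool :=
  (List.range (numE s)).all fun j =>
    decide (sumB (numV s) (fun _ => true) (entry s j) = 2) &&
    (List.range (numV s)).all fun a => decide (entry s j a ≤ 1)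

/-- no two edges have the same ends, as a Boolean -/
def injB (s : List Bool) : Bool :=
  (List.range (numE s)).all fun j => (List.range (numE s)).all fun j' =>
    decide (j = j') || (List.range (numV s)).any fun a => decide (¬ entry s j a = entry s j' a)

/-- the bit of the witness that says that `a` is mapped to `x` -/
def fB (nH : ℕ) (w : List Bool) (a x : ℕ) : Bool := w.getD (a * nH + x) false

/-- the bit of the witness that says that the edge `j` is mapped to `e` -/
def gB (nH eH : ℕ) (s w : List Bool) (j e : ℕ) : Bool :=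
  w.getD (numV s * nH + (j * eH + e)) false

/-- the number of ends of the edge `e` of `H` at `x` -/
def tH (tab : List (List ℕ)) (e x : ℕ) : ℕ := (tab.getD e []).getD x 0

/-- the witness is a covering projection, as a Boolean -/
def covB (nH eH : ℕ) (tab : List (List ℕ)) (s w : List Bool) : Bool :=
  ((List.range (numV s)).all fun a =>
    decide (sumB nH (fun x => fB nH w a x) (fun _ => 1) = 1)) &&
  ((List.range (numE s)).all fun j =>
    decide (sumB eH (fun e => gB nH eH s w j e) (fun _ => 1) = 1)) &&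
  ((List.range nH).all fun x => (List.range (numV s)).any fun a => fB nH w a x) &&
  ((List.range eH).all fun e => (List.range (numE s)).any fun j => gB nH eH s w j e) &&
  ((List.range (numE s)).all fun j => (List.range eH).all fun e =>
    !gB nH eH s w j e ||
    (((List.range nH).all fun x =>
      decide (sumB (numV s) (fun a => fB nH w a x) (entry s j) = tH tab e x)) ||
     (decide (sumB nH (fun _ => true) (tH tab e) = 1) &&
      (List.range nH).all fun x =>
        decide (sumB (numV s) (fun a => fB nH w a x) (entry s j) = 2 * tH tab e x)))) &&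
  ((List.range (numV s)).all fun a => (List.range eH).all fun e => (List.range nH).all fun x =>
    !fB nH w a x || decide (sumB (numE s) (fun j => gB nH eH s w j e) (fun j => entry s j a) =
      tH tab e x))

/-- the verifier -/
def verB (nH eH : ℕ) (tab : List (List ℕ)) (s w : List Bool) : Bool :=
  codeB s && ordB s && injB s && covB nH eH tab s w

/-- the table of `H` -/
def tabH (H : Gr) {nH eH : ℕ} (φ : H.V ≃ Fin nH) (ψ : H.E ≃ Fin eH) : List (List ℕ) :=
  (List.finRange eH).map fun e => (List.finRange nH).map fun x =>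
    (H.ends (ψ.symm e)).count (φ.symm x)

/-- [fpcode2] -/
def S_fpcb : Prop := ∀ (α : Type) [Enc α] (s : α → List Bool), FP .poly s →
  FP .poly (fun a => codeB (s a)) ∧ FP .poly (fun a => ordB (s a)) ∧
    FP .poly (fun a => injB (s a))

/-- [fpcov] -/
def S_fpcov : Prop := ∀ (nH eH : ℕ) (tab : List (List ℕ)) (α : Type) [Enc α]
  (s w : α → List Bool), FP .poly s → FP .poly w →
  FP .poly (fun a => covB nH eH tab (s a) (w a))

/-- [codeb] -/
def S_codeb : Prop := ∀ s, (codeB s = true ↔ IsCode s) ∧ ∀ h : IsCode s,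
  (ordB s = true ↔ ∀ e, ((graphOf s h).ends e).card = 2 ∧ ((graphOf s h).ends e).Nodup) ∧
  (injB s = true ↔ Function.Injective (graphOf s h).ends)

/-- [covb] -/
def S_covb : Prop := ∀ (H : Gr) (nH eH : ℕ) (φ : H.V ≃ Fin nH) (ψ : H.E ≃ Fin eH) (s : List Bool)
  (h : IsCode s), (graphOf s h).Covers H ↔
    ∃ w : List Bool, w.length ≤ s.length * (nH + eH) ∧ covB nH eH (tabH H φ ψ) s w = true

/-- [np] -/
def S_np : Prop := S_fpcb → S_fpcov → S_codeb → S_covb → ∀ H : Gr, CoverSimple H ∈ N68a2faeb.NP

/-! ### J. the dipole -/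

/-- regular bipartite graphs -/
def BipReg (G : Gr) (k : ℕ) : Prop :=
  (∃ side : G.V → Bool, ∀ e, ∃ a b, side a = true ∧ side b = false ∧ G.ends e = {a, b}) ∧
    G.Regular k

/-- [match] A `k`-regular bipartite multigraph (`k > 0`) has a perfect matching (Hall). The graph
is given by the two ends `l e`, `r e` of its edges. -/
def S_match : Prop := ∀ (X Y E : Type) [Fintype X] [Fintype Y] [Fintype E] [DecidableEq X]
  [DecidableEq Y] [DecidableEq E] (l : E → X) (r : E → Y) (k : ℕ), 0 < k →
  (∀ x, (univ.filter fun e => l e = x).card = k) → (∀ y, (univ.filter fun e => r e = y).card = k) →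
  ∃ M : Finset E, (∀ x, (M.filter fun e => l e = x).card = 1) ∧
    ∀ y, (M.filter fun e => r e = y).card = 1

/-- [konig] A `k`-regular bipartite multigraph has a proper edge colouring with `k` colours. -/
def S_konig : Prop := S_match → ∀ (X Y E : Type) [Fintype X] [Fintype Y] [Fintype E]
  [DecidableEq X] [DecidableEq Y] [DecidableEq E] (l : E → X) (r : E → Y) (k : ℕ),
  (∀ x, (univ.filter fun e => l e = x).card = k) → (∀ y, (univ.filter fun e => r e = y).card = k) →
  ∃ c : E → Fin k, (∀ x i, (univ.filter fun e => l e = x ∧ c e = i).card = 1) ∧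
    ∀ y i, (univ.filter fun e => r e = y ∧ c e = i).card = 1

/-- [dcov] -/
def S_dcov : Prop := S_match → S_konig → ∀ (G H : Gr) (k : ℕ), 0 < k → Nonempty G.V →
  H.Dipole → H.Regular k → BipReg G k → G.Covers H

/-- [dconv] -/
def S_dconv : Prop := ∀ (G H : Gr) (k : ℕ), H.Dipole → H.Regular k → G.Covers H → BipReg G k

/-- one step of the search: the entry `2 b + p` of the state says that `b` can be reached by a walk
whose length has the parity `p` -/
def stepB (s st : List Bool) : List Bool :=
  (List.range (numV s)).flatMap fun b =>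
    [st.getD (2 * b) false || ((List.range (numE s)).any fun j => decide (entry s j b = 1) &&
        (List.range (numV s)).any fun c => decide (¬ c = b) && decide (entry s j c = 1) &&
          st.getD (2 * c + 1) false),
     st.getD (2 * b + 1) false || ((List.range (numE s)).any fun j => decide (entry s j b = 1) &&
        (List.range (numV s)).any fun c => decide (¬ c = b) && decide (entry s j c = 1) &&
          st.getD (2 * c) false)]

/-- the start of the search at `a` -/
def initB (s : List Bool) (a : ℕ) : List Bool :=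
  (List.range (numV s)).flatMap fun b => [decide (b = a), false]

/-- the algorithm for the dipole -/
def dipB (k : ℕ) (s : List Bool) : Bool :=
  codeB s && ordB s &&
  ((List.range (numV s)).all fun a =>
    decide (sumB (numE s) (fun _ => true) (fun j => entry s j a) = k)) &&
  ((List.range (numV s)).all fun a =>
    !(((stepB s)^[2 * numV s] (initB s a)).getD (2 * a + 1) false))

/-- [fpdip] -/
def S_fpdip : Prop := S_fpcb → ∀ k, FP .poly (dipB k)

/-- [dalg] If no vertex can be reached from itself by an odd walk, then the graph is bipartite. -/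
def S_dalg : Prop := S_codeb → ∀ (k : ℕ) (s : List Bool), dipB k s = true ↔
  ∃ h : IsCode s, BipReg (graphOf s h) k

end SDich
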